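import Pool.Agent.Lib.MP_185924_lc.CO.Force

set_option autoImplicit false

namespace Pool.Agent.Results.MP_185924_lc.CohenReals

open Pool.Agent.Lib.MP_40ade9_lc Pool.Agent.Lib.MP_185924_lc.CO

/-- The circulant graph on twelve points with distances `1, 3, 4` has no four pairwise adjacent
points, and for every uncountable set `I` every condition of the forcing `Fn(I, 2)` adding `|I|`
Cohen reals forces the first-order sentence saying that some graph on `ω₁²` has no independent set
of order type `ω₁ω`, no four pairwise adjacent points and no copy of this circulant graph. -/
theorem result :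
    (SimpleGraph.circulantGraph ({1, 3, 4} : Set (Fin 12))).CliqueFree 4 ∧
      ∀ (I : Type) [Uncountable I] (p : Fn I),
        Forces (negRel (SimpleGraph.circulantGraph ({1, 3, 4} : Set (Fin 12)))) p :=
  ⟨cliqueFree_C12, main⟩

end Pool.Agent.Results.MP_185924_lc.CohenReals
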