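import Pool.Agent.Lib.MP_185924_lc.ZY.Cone

set_option autoImplicit false

namespace Pool.Agent.Results.MP_185924_lc.Cones

open Pool.Agent.Lib.MP_185924_lc.ZY

/-- Let `G` be a finite graph made of an independent set `I` and a Zykov graph on the remaining
vertices. For every colouring of the pairs of ordinals below `ω₁ * ω₁` with colours `0, …, k`
there is a set of order type `ω₁ * ω` all of whose pairs have colour `0`, or a nonzero colour `i`
and a copy of `G` all of whose edges have colour `i`. -/
theorem result (k : ℕ) {V : Type} [Finite V] (G : SimpleGraph V) (I : Set V)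
    (hI : G.IsIndepSet I) (hZ : ZykovOn G Iᶜ) (c : Sym2 Ordinal.{0} → Fin (k + 1)) :
    (∃ f : Ordinal.{0} → Ordinal.{0},
        StrictMonoOn f (Set.Iio ((Cardinal.aleph 1).ord * Ordinal.omega0)) ∧
        (∀ α, α < (Cardinal.aleph 1).ord * Ordinal.omega0 →
            f α < (Cardinal.aleph 1).ord * (Cardinal.aleph 1).ord) ∧
        (∀ α β, α < β → β < (Cardinal.aleph 1).ord * Ordinal.omega0 → c s(f α, f β) = 0)) ∨
    ∃ i : Fin (k + 1), i ≠ 0 ∧ ∃ g : V → Ordinal.{0}, Function.Injective g ∧
      (∀ v, g v < (Cardinal.aleph 1).ord * (Cardinal.aleph 1).ord) ∧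
      ∀ u v, G.Adj u v → c s(g u, g v) = i :=
  main_cone k hI hZ c

end Pool.Agent.Results.MP_185924_lc.Cones
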