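import Pool.Agent.Lib.MP_185924_lc.Main

set_option autoImplicit false

namespace Pool.Agent.Results.MP_185924_lc.Tripartite

open Set Pool.Agent.Lib.MP_185924_lc

theorem countable_Iio_iff (o : Ordinal.{0}) : (Iio o).Countable ↔ o < (Cardinal.aleph 1).ord := by
  rw [← Cardinal.le_aleph0_iff_set_countable, Cardinal.mk_Iio_ordinal, Cardinal.lift_le_aleph0,
    Cardinal.lt_ord, ← Cardinal.succ_aleph0, Order.lt_succ_iff]

theorem mul_add_lt {w a b s t : Ordinal.{0}} (h : a < b) (hs : s < w) : w * a + s < w * b + t :=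
  calc w * a + s < w * a + w := by gcongr
    _ = w * (a + 1) := by rw [mul_add, mul_one]
    _ ≤ w * b := by gcongr; exact Order.add_one_le_of_lt h
    _ ≤ w * b + t := le_self_add

/-- In every colouring of the pairs of ordinals below `ω₁ * ω₁` with colours `0, …, k` there is a
set of order type `ω₁ * ω` all of whose pairs have colour `0`, or a nonzero colour `i` and disjoint
sets `P`, `Q`, `R` of sizes `n`, `n` and uncountable with all pairs between different sets of
colour `i`. -/
theorem result (k n : ℕ) (c : Sym2 Ordinal.{0} → Fin (k + 1)) :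
    (∃ f : Ordinal.{0} → Ordinal.{0},
        StrictMonoOn f (Set.Iio ((Cardinal.aleph 1).ord * Ordinal.omega0)) ∧
        (∀ α, α < (Cardinal.aleph 1).ord * Ordinal.omega0 →
            f α < (Cardinal.aleph 1).ord * (Cardinal.aleph 1).ord) ∧
        (∀ α β, α < β → β < (Cardinal.aleph 1).ord * Ordinal.omega0 → c s(f α, f β) = 0)) ∨
    (∃ i : Fin (k + 1), i ≠ 0 ∧ ∃ (P Q : Finset Ordinal.{0}) (R : Set Ordinal.{0}),
        P.card = n ∧ Q.card = n ∧ ¬ R.Countable ∧
        (↑P ∪ ↑Q ∪ R : Set Ordinal.{0}) ⊆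
          Set.Iio ((Cardinal.aleph 1).ord * (Cardinal.aleph 1).ord) ∧
        Disjoint P Q ∧ Disjoint (↑P : Set Ordinal.{0}) R ∧ Disjoint (↑Q : Set Ordinal.{0}) R ∧
        (∀ x ∈ P, ∀ y ∈ Q, c s(x, y) = i) ∧ (∀ x ∈ P, ∀ y ∈ R, c s(x, y) = i) ∧
        (∀ x ∈ Q, ∀ y ∈ R, c s(x, y) = i)) := by
  classical
  set w : Ordinal.{0} := (Cardinal.aleph 1).ord with hw
  have hlim : Order.IsSuccLimit w := Cardinal.isSuccLimit_ord (Cardinal.aleph0_le_aleph 1)
  have hw0 : 0 < w := hlim.bot_lt
  have : Uncountable (Iio w) := by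
    rw [← not_countable_iff, countable_coe_iff, countable_Iio_iff]; exact lt_irrefl _
  have hc : ∀ a : Iio w, (Iic a).Countable := fun a => by
    have h1 : (Iio (a.1 + 1)).Countable := (countable_Iio_iff _).2 (hlim.add_one_lt a.2)
    refine (h1.preimage_of_injOn (f := Subtype.val) Subtype.val_injective.injOn).mono ?_
    intro b hb
    exact Order.lt_add_one_iff.2 (show b.1 ≤ a.1 from hb)
  let φ : Iio w × Iio w → Ordinal.{0} := fun x => w * x.1.1 + x.2.1
  have φlt : ∀ x, φ x < w * w := fun x => by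
    simpa using mul_add_lt (t := 0) x.1.2 x.2.2
  have φinj : Function.Injective φ := by
    rintro ⟨a, s⟩ ⟨b, t⟩ h
    have hab : a = b := by
      rcases lt_trichotomy a b with h' | h' | h'
      · exact absurd h (ne_of_lt (mul_add_lt h' s.2))
      · exact h'
      · exact absurd h (ne_of_gt (mul_add_lt h' t.2))
    subst hab
    exact Prod.ext rfl (Subtype.ext (add_left_cancel h))
  let adj : Fin k → Iio w × Iio w → Iio w × Iio w → Prop :=
    fun i x y => x ≠ y ∧ c s(φ x, φ y) = i.succ
  rw [or_iff_not_imp_right]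
  intro hR
  have hf : Free adj n := by
    intro i P Q R hP hQ h1 h2 h3
    by_contra hRc
    obtain ⟨P', p1, p2⟩ := Finset.exists_subset_card_eq hP
    obtain ⟨Q', q1, q2⟩ := Finset.exists_subset_card_eq hQ
    refine hR ⟨i.succ, Fin.succ_ne_zero i, P'.image φ, Q'.image φ, φ '' R,
      by rw [Finset.card_image_of_injective _ φinj, p2],
      by rw [Finset.card_image_of_injective _ φinj, q2],
      fun h => hRc (countable_of_injective_of_countable_image φinj.injOn h), ?_, ?_, ?_, ?_,
      ?_, ?_, ?_⟩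
    · simp only [Finset.coe_image]
      rintro x ((⟨y, -, rfl⟩ | ⟨y, -, rfl⟩) | ⟨y, -, rfl⟩) <;> exact φlt y
    · rw [Finset.disjoint_image φinj, Finset.disjoint_left]
      exact fun x hx hx' => (h1 x (p1 hx) x (q1 hx')).1 rfl
    · rw [Finset.coe_image, disjoint_image_iff φinj, Set.disjoint_left]
      exact fun x hx hx' => (h2 x (p1 hx) x hx').1 rfl
    · rw [Finset.coe_image, disjoint_image_iff φinj, Set.disjoint_left]
      exact fun x hx hx' => (h3 x (q1 hx) x hx').1 rfl
    · intro x hx y hy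
      obtain ⟨x', hx', rfl⟩ := Finset.mem_image.1 hx
      obtain ⟨y', hy', rfl⟩ := Finset.mem_image.1 hy
      exact (h1 x' (p1 hx') y' (q1 hy')).2
    · rintro x hx _ ⟨y, hy, rfl⟩
      obtain ⟨x', hx', rfl⟩ := Finset.mem_image.1 hx
      exact (h2 x' (p1 hx') y hy).2
    · rintro x hx _ ⟨y, hy, rfl⟩
      obtain ⟨x', hx', rfl⟩ := Finset.mem_image.1 hx
      exact (h3 x' (q1 hx') y hy).2
  obtain ⟨α, hα, p, hp, hind⟩ := indep_of_free hc
    (fun i x y h => ⟨h.1.symm, by rw [Sym2.eq_swap]; exact h.2⟩) hf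
  have hdiv : ∀ β : Ordinal.{0}, ∃ i : ℕ, β < w * Ordinal.omega0 → β / w = i := fun β => by
    by_cases h : β < w * Ordinal.omega0
    · obtain ⟨i, hi⟩ := Ordinal.lt_omega0.1 ((Ordinal.lt_mul_iff_div_lt hw0.ne').1 h)
      exact ⟨i, fun _ => hi⟩
    · exact ⟨0, fun h' => absurd h' h⟩
  choose q hq using hdiv
  let r : Ordinal.{0} → Iio w := fun β => ⟨β % w, Ordinal.mod_lt β hw0.ne'⟩
  have hlex : ∀ a b, a < b → b < w * Ordinal.omega0 → q a < q b ∨ (q a = q b ∧ r a < r b) := by
    intro a b hab hb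
    have ea := Ordinal.div_add_mod a w
    have eb := Ordinal.div_add_mod b w
    rw [hq a (hab.trans hb)] at ea
    rw [hq b hb] at eb
    rcases lt_trichotomy (q a) (q b) with h | h | h
    · exact Or.inl h
    · refine Or.inr ⟨h, ?_⟩
      have : w * (q a : Ordinal.{0}) + a % w < w * (q a : Ordinal.{0}) + b % w := by
        rw [ea]; rw [← h] at eb; rw [eb]; exact hab
      exact (lt_of_add_lt_add_left this : a % w < b % w)
    · exfalso
      have := mul_add_lt (t := a % w) (show (q b : Ordinal.{0}) < q a by exact_mod_cast h)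
        (Ordinal.mod_lt b hw0.ne')
      rw [ea, eb] at this
      exact lt_asymm hab this
  have hmono : ∀ a b, a < b → b < w * Ordinal.omega0 →
      φ (α (q a), p (q a) (r a)) < φ (α (q b), p (q b) (r b)) := by
    intro a b hab hb
    rcases hlex a b hab hb with h | ⟨h, h'⟩
    · exact mul_add_lt (hα h) (p _ _).2
    · rw [h]
      have : (p (q b) (r a)).1 < (p (q b) (r b)).1 := hp _ h'
      exact add_lt_add_right this _
  refine ⟨fun β => φ (α (q β), p (q β) (r β)), fun a _ b hb hab => hmono a b hab hb,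
    fun a _ => φlt _, fun a b hab hb => ?_⟩
  by_contra hne
  obtain ⟨i, hi⟩ := Fin.exists_succ_eq.2 hne
  refine hind (q a) (r a) (q b) (r b) (fun e => ?_) i
    ⟨fun e => (hmono a b hab hb).ne (congrArg φ e), hi.symm⟩
  have := hmono a b hab hb
  rw [(Prod.mk.inj e).1, (Prod.mk.inj e).2] at this
  exact lt_irrefl _ this

end Pool.Agent.Results.MP_185924_lc.Tripartite
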