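import Pool.Agent.Lib.MP_185924_lc.ZY.Ord

set_option autoImplicit false

namespace Pool.Agent.Results.MP_185924_lc.Zykov

open Pool.Agent.Lib.MP_185924_lc.ZY

/-- For every finite two-level Zykov graph `G` and every colouring of the pairs of ordinals below
`ω₁ * ω₁` with colours `0, 1` there is a set of order type `ω₁ * ω` all of whose pairs have colour
`0`, or a copy of `G` all of whose edges have colour `1`. -/
theorem result {V : Type} [Finite V] (G : SimpleGraph V) (hG : TwoLevel G)
    (c : Sym2 Ordinal.{0} → Fin 2) :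
    (∃ f : Ordinal.{0} → Ordinal.{0},
        StrictMonoOn f (Set.Iio ((Cardinal.aleph 1).ord * Ordinal.omega0)) ∧
        (∀ α, α < (Cardinal.aleph 1).ord * Ordinal.omega0 →
            f α < (Cardinal.aleph 1).ord * (Cardinal.aleph 1).ord) ∧
        (∀ α β, α < β → β < (Cardinal.aleph 1).ord * Ordinal.omega0 → c s(f α, f β) = 0)) ∨
    ∃ g : V → Ordinal.{0}, Function.Injective g ∧
      (∀ v, g v < (Cardinal.aleph 1).ord * (Cardinal.aleph 1).ord) ∧
      ∀ u v, G.Adj u v → c s(g u, g v) = 1 :=
  main_two hG c

end Pool.Agent.Results.MP_185924_lc.Zykov
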